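import Pool.Agent.Q253.NF.Stm3

set_option autoImplicit false

/-!
# Project NF (helper253), job KT: the circle function
-/

namespace Pool.Agent.Q166.NF

open MeasureTheory Filter Topology Set Complex
open Pool.Agent.Q253.NF

theorem inj : Function.Injective (fun γ : ℝ => (γ : ℂ) * I) := by
  intro x y h
  have := congrArg Complex.im h
  simpa using this

theorem half_re (w : ℂ) (hw : 1 / 2 ≤ w.re) : 1 / 2 < (w ^ (1 / 2 : ℂ)).re ∧
    (w ^ (1 / 2 : ℂ)) ^ 2 = w := by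
  have hw0 : w ≠ 0 := by
    rintro rfl
    norm_num at hw
  have hsq : (w ^ (1 / 2 : ℂ)) ^ 2 = w := by
    rw [← Complex.cpow_nat_mul]
    norm_num
  refine ⟨?_, hsq⟩
  have hre : 0 ≤ (w ^ (1 / 2 : ℂ)).re := by
    rw [Complex.cpow_def_of_ne_zero hw0, Complex.exp_re]
    apply mul_nonneg (Real.exp_pos _).le
    have e : (Complex.log w * (1 / 2 : ℂ)).im = w.arg / 2 := by
      have : (1 / 2 : ℂ) = ((1 / 2 : ℝ) : ℂ) := by push_cast; rfl
      rw [this, mul_comm, Complex.im_ofReal_mul, Complex.log_im]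
      ring
    rw [e]
    apply Real.cos_nonneg_of_mem_Icc
    have h1 := Complex.neg_pi_lt_arg w
    have h2 := Complex.arg_le_pi w
    constructor <;> linarith
  have h3 := congrArg Complex.re hsq
  rw [sq, Complex.mul_re] at h3
  nlinarith [sq_nonneg (w ^ (1 / 2 : ℂ)).im]

theorem odd_ld {X : ℂ → ℂ} (h : ∃ ε : ℂ, ε ≠ 0 ∧ ∀ z : ℂ, X (-z) = ε * X z) (z : ℂ) :
    logDeriv X (-z) = -logDeriv X z := by
  obtain ⟨ε, hε, h⟩ := h
  have h1 : deriv (fun z => X (-z)) z = -deriv X (-z) := deriv_comp_neg X z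
  have h2 : deriv (fun z => X (-z)) z = ε * deriv X z := by
    have e : (fun z => X (-z)) = fun z => ε * X z := funext h
    rw [e]
    exact deriv_const_mul_field ε
  have h3 : deriv X (-z) = -(ε * deriv X z) := by rw [← h2, h1, neg_neg]
  rw [logDeriv_apply, logDeriv_apply, h3, h z]
  by_cases hX : X z = 0
  · rw [hX]
    simp
  · field_simp

/-- the logarithmic derivative of one function -/
theorem one (hPF : S_PF) (D : Dat) (hev : ∃ ε : ℂ, ε ≠ 0 ∧ ∀ z : ℂ, D.X (-z) = ε * D.X z)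
    (hl : ∀ a : ℂ, a.re ≠ 0 → D.m a = 0) (t z : ℂ) (ht : ‖t‖ = 1 / 2) (hz : 1 / 2 < z.re)
    (hzt : z ^ 2 = 1 - t) :
    z⁻¹ * logDeriv D.X z = ∑' γ : ℝ, (D.m (γ * I) : ℂ) * (1 / (1 + (γ : ℂ) ^ 2 - t)) ∧
    Summable (fun γ : ℝ => (D.m (γ * I) : ℂ) * (1 / (1 + (γ : ℂ) ^ 2 - t))) := by
  obtain ⟨hs, h1, -⟩ := hPF D
  have hz0 : z ≠ 0 := by
    rintro rfl
    simp at hz
    linarith
  have h2 := h1 z (-z) (by rw [abs_of_pos (by linarith)]; exact hz)
    (by rw [neg_re, abs_neg, abs_of_pos (by linarith)]; exact hz)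
  rw [odd_ld hev z, sub_neg_eq_add] at h2
  have h3 : ∀ a : ℂ, (D.m a : ℂ) * (1 / (z - a) - 1 / (-z - a)) =
      (2 * z) * ((D.m a : ℂ) * (1 / (1 - t - a ^ 2))) := by
    intro a
    by_cases ha : a.re = 0
    · have n1 : z - a ≠ 0 := by
        intro h
        have := congrArg Complex.re h
        rw [sub_re, ha, zero_re] at this
        linarith
      have n2 : z + a ≠ 0 := by
        intro h
        have := congrArg Complex.re h
        rw [add_re, ha, zero_re] at this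
        linarith
      have n3 : -z - a ≠ 0 := by
        intro h
        apply n2
        linear_combination -h
      have n4 : 1 - t - a ^ 2 = (z - a) * (z + a) := by rw [← hzt]; ring
      rw [n4]
      have n5 : -z - a = -(z + a) := by ring
      rw [n5]
      field_simp
      ring
    · rw [hl a ha]
      simp
  rw [tsum_congr h3, tsum_mul_left] at h2
  have h4 : z⁻¹ * logDeriv D.X z = ∑' a : ℂ, (D.m a : ℂ) * (1 / (1 - t - a ^ 2)) := by
    have : logDeriv D.X z = z * ∑' a : ℂ, (D.m a : ℂ) * (1 / (1 - t - a ^ 2)) := by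
      linear_combination h2 / 2
    rw [this, inv_mul_cancel_left₀ hz0]
  have hI : ∀ γ : ℝ, (1 - t - ((γ : ℂ) * I) ^ 2) = 1 + (γ : ℂ) ^ 2 - t := by
    intro γ
    rw [mul_pow, Complex.I_sq]
    ring
  constructor
  · rw [h4]
    have h5 : ∀ γ : ℝ, (D.m (γ * I) : ℂ) * (1 / (1 + (γ : ℂ) ^ 2 - t)) =
        (fun a : ℂ => (D.m a : ℂ) * (1 / (1 - t - a ^ 2))) ((fun γ : ℝ => (γ : ℂ) * I) γ) := by
      intro γ
      simp only
      rw [hI]
    rw [tsum_congr h5]
    refine (inj.tsum_eq ?_).symm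
    intro a ha
    by_contra hn
    apply ha
    simp only
    rw [hl a]
    · simp
    · intro h0
      apply hn
      refine ⟨a.im, ?_⟩
      apply Complex.ext <;> simp [h0]
  · have hs2 : Summable (fun γ : ℝ => (D.m (γ * I) : ℝ) / (1 + ‖((γ : ℂ) * I)‖ ^ 2)) :=
      hs.comp_injective inj
    apply Summable.of_norm_bounded (hs2.mul_left 2)
    intro γ
    rw [norm_mul, Complex.norm_natCast, norm_div, norm_one]
    have e1 : ‖((γ : ℂ) * I)‖ ^ 2 = γ ^ 2 := by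
      rw [norm_mul, Complex.norm_I, mul_one, Complex.norm_real, Real.norm_eq_abs, sq_abs]
    rw [e1]
    have e2 : (1 / 2 : ℝ) + γ ^ 2 ≤ ‖(1 + (γ : ℂ) ^ 2 - t)‖ := by
      have a1 : ‖(1 + (γ : ℂ) ^ 2 : ℂ)‖ = 1 + γ ^ 2 := by
        have : (1 + (γ : ℂ) ^ 2 : ℂ) = ((1 + γ ^ 2 : ℝ) : ℂ) := by push_cast; rfl
        rw [this, Complex.norm_real, Real.norm_eq_abs, abs_of_pos (by positivity)]
      have a2 := norm_sub_norm_le (1 + (γ : ℂ) ^ 2) t
      rw [a1, ht] at a2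
      linarith
    have e3 : 1 / ‖(1 + (γ : ℂ) ^ 2 - t)‖ ≤ 2 / (1 + γ ^ 2) := by
      have p1 : 0 < ‖(1 + (γ : ℂ) ^ 2 - t)‖ := by nlinarith [sq_nonneg γ]
      have p2 : 0 < 1 + γ ^ 2 := by positivity
      rw [div_le_div_iff₀ p1 p2]
      linarith [sq_nonneg γ]
    calc (D.m (γ * I) : ℝ) * (1 / ‖(1 + (γ : ℂ) ^ 2 - t)‖)
        ≤ (D.m (γ * I) : ℝ) * (2 / (1 + γ ^ 2)) := mul_le_mul_of_nonneg_left e3 (Nat.cast_nonneg _)
      _ = 2 * ((D.m (γ * I) : ℝ) / (1 + γ ^ 2)) := by ring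

theorem kt : Pool.Agent.Q253.NF.S_KT := by
  intro hPF ι _ D r N hev hl hN t ht
  have hre : 1 / 2 ≤ (1 - t).re := by
    rw [sub_re, one_re]
    have := Complex.re_le_norm t
    linarith
  obtain ⟨hz, hzt⟩ := half_re (1 - t) hre
  refine ⟨hz, ?_⟩
  rw [Complex.cpow_neg]
  generalize (1 - t) ^ (1 / 2 : ℂ) = z at hz hzt
  have h1 := fun i => one hPF (D i) (hev i) (hl i) t z ht hz hzt
  calc z⁻¹ * ∑ i, (r i : ℂ) * logDeriv (D i).X z
      = ∑ i, (r i : ℂ) * (z⁻¹ * logDeriv (D i).X z) := by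
        rw [Finset.mul_sum]
        exact Finset.sum_congr rfl fun i _ => by ring
    _ = ∑ i, ∑' γ : ℝ, (r i : ℂ) * (((D i).m (γ * I) : ℂ) * (1 / (1 + (γ : ℂ) ^ 2 - t))) := by
        refine Finset.sum_congr rfl fun i _ => ?_
        rw [(h1 i).1, tsum_mul_left]
    _ = ∑' γ : ℝ, ∑ i, (r i : ℂ) * (((D i).m (γ * I) : ℂ) * (1 / (1 + (γ : ℂ) ^ 2 - t))) :=
        (Summable.tsum_finsetSum fun i _ => (h1 i).2.mul_left _).symm
    _ = ∑' γ : ℝ, (N γ : ℂ) / (1 + (γ : ℂ) ^ 2 - t) := by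
        refine tsum_congr fun γ => ?_
        have h2 : ∑ i, (r i : ℂ) * ((D i).m (γ * I) : ℂ) = (N γ : ℂ) := by
          have := congrArg (fun x : ℚ => (x : ℂ)) (hN γ)
          simpa using this
        rw [← h2, Finset.sum_div]
        exact Finset.sum_congr rfl fun i _ => by ring

end Pool.Agent.Q166.NF
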